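import Mathlib

namespace Pool.Agent.Results.MP_bcda77_nt.Reduction

open Finset

/-- sum of the positive divisors -/
def sg (m : ℕ) : ℕ := ∑ d ∈ m.divisors, d

/-- least deficient k such that k n is non-deficient -/
noncomputable def a (n : ℕ) : ℕ := sInf {k | 1 ≤ k ∧ sg k < 2 * k ∧ 2 * (k * n) ≤ sg (k * n)}

/-- smallest prime greater than 2^m -/
noncomputable def p (m : ℕ) : ℕ := sInf {q | q.Prime ∧ 2 ^ m < q}

theorem sg_pow (j : ℕ) : sg (2 ^ j) + 1 = 2 * 2 ^ j := by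
  rw [sg, Nat.sum_divisors_prime_pow Nat.prime_two]
  induction j with
  | zero => simp
  | succ j ih => rw [sum_range_succ, pow_succ]; omega

theorem sg_mul (k q : ℕ) (hq : q.Prime) (h : k.Coprime q) : sg (k * q) = sg k * (q + 1) := by
  have h1 := (ArithmeticFunction.isMultiplicative_sigma (k := 1)).map_mul_of_coprime h
  simp only [ArithmeticFunction.sigma_one_apply] at h1
  rw [sg, h1, sg, hq.sum_divisors, add_comm]

theorem sg_ge (x b : ℕ) (hx : x ≠ 0) (hb : b ≠ 0) : sg x * b ≤ sg (x * b) := by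
  rw [sg, sg, sum_mul, ← sum_image (f := fun d => d) (g := fun d => d * b) (s := x.divisors)
    (fun u _ v _ h => Nat.eq_of_mul_eq_mul_right (Nat.pos_of_ne_zero hb) h)]
  refine sum_le_sum_of_subset fun y hy => ?_
  obtain ⟨d, hd, rfl⟩ := mem_image.1 hy
  exact Nat.mem_divisors.2 ⟨Nat.mul_dvd_mul_right (Nat.dvd_of_mem_divisors hd) _, mul_ne_zero hx hb⟩

theorem two_q (j q : ℕ) (hq : q.Prime) (hq2 : q ≠ 2) (h2 : q < 2 * 2 ^ j) :
    2 * (2 ^ j * q) ≤ sg (2 ^ j * q) := by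
  rw [sg_mul _ _ hq (Nat.Coprime.pow_left _ ((Nat.coprime_primes Nat.prime_two hq).2 hq2.symm))]
  have := sg_pow j
  nlinarith

theorem p_spec (m : ℕ) (hm : 1 ≤ m) : (p m).Prime ∧ 2 ^ m < p m ∧ p m < 2 * 2 ^ m := by
  obtain ⟨q, h1, h2, h3⟩ := Nat.exists_prime_lt_and_le_two_mul (2 ^ m) (by positivity)
  have hm' : p m ∈ {q : ℕ | q.Prime ∧ 2 ^ m < q} := Nat.sInf_mem ⟨q, h1, h2⟩
  have hle : p m ≤ q := Nat.sInf_le ⟨h1, h2⟩
  refine ⟨hm'.1, hm'.2, ?_⟩
  have : q ≠ 2 * 2 ^ m := by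
    rintro rfl
    have h4 := (Nat.prime_mul_iff.1 h1)
    have : 1 < 2 ^ m := Nat.one_lt_two_pow (by omega)
    omega
  omega

theorem first (m n : ℕ) (hm : 1 ≤ m) (h2 : 2 ≤ n) (hn : n < p m) : a n ≠ 2 ^ m := by
  intro h
  by_cases c : ∃ q, q.Prime ∧ q ∣ n ∧ q ≠ 2
  · obtain ⟨q, hq, ⟨b, rfl⟩, hq2⟩ := c
    have hb : b ≠ 0 := by rintro rfl; simp at h2
    have hqm : q ≤ 2 ^ m := by
      by_contra c
      have : p m ≤ q := Nat.sInf_le ⟨hq, not_le.1 c⟩
      have : q ≤ q * b := Nat.le_mul_of_pos_right _ (Nat.pos_of_ne_zero hb)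
      omega
    have l1 := Nat.pow_log_le_self 2 hq.ne_zero
    have l2 := Nat.lt_pow_succ_log_self (b := 2) (by norm_num) q
    generalize Nat.log 2 q = j at l1 l2
    have l3 : 2 ^ j ≠ q := by
      intro e
      rcases j with _ | j
      · exact hq.one_lt.ne' (by simpa using e.symm)
      · exact hq2 ((Nat.prime_dvd_prime_iff_eq Nat.prime_two hq).1
          (e ▸ dvd_pow_self 2 (by omega))).symm
    have l4 := two_q j q hq hq2 (by rw [pow_succ] at l2; omega)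
    have l5 := sg_ge (2 ^ j * q) b (mul_ne_zero (by positivity) hq.ne_zero) hb
    have l6 : a (q * b) ≤ 2 ^ j := by
      refine Nat.sInf_le ⟨Nat.one_le_two_pow, by have := sg_pow j; omega, ?_⟩
      rw [show 2 ^ j * (q * b) = 2 ^ j * q * b by ring]
      nlinarith
    omega
  · have hpow : n = 2 ^ n.primeFactorsList.length :=
      Nat.eq_prime_pow_of_unique_prime_dvd (by omega) fun {d} hd hdn => by
        by_contra e; exact c ⟨d, hd, hdn, e⟩
    have hne : {k | 1 ≤ k ∧ sg k < 2 * k ∧ 2 * (k * n) ≤ sg (k * n)}.Nonempty := by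
      by_contra e
      rw [Set.not_nonempty_iff_eq_empty] at e
      rw [a, e, Nat.sInf_empty] at h
      have : 0 < 2 ^ m := by positivity
      omega
    have hmem := Nat.sInf_mem hne
    rw [show sInf _ = a n from rfl, h] at hmem
    have h3 := hmem.2.2
    rw [hpow, ← pow_add] at h3
    have := sg_pow (m + n.primeFactorsList.length)
    omega

theorem second (m : ℕ) (hm : 1 ≤ m) :
    a (p m) = 2 ^ m ↔ ¬ ∃ k, k < 2 ^ m ∧ p m < 2 * k ∧ sg k + 1 = 2 * k := by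
  obtain ⟨h1, h2, h3⟩ := p_spec m hm
  have h4 : 2 ≤ 2 ^ m := Nat.le_self_pow (by omega) 2
  have hmem : 2 ^ m ∈ {k | 1 ≤ k ∧ sg k < 2 * k ∧ 2 * (k * p m) ≤ sg (k * p m)} :=
    ⟨by omega, by have := sg_pow m; omega, two_q m _ h1 (by omega) h3⟩
  have hco : ∀ k, 1 ≤ k → k < 2 ^ m → sg (k * p m) = sg k * (p m + 1) := fun k k1 k2 =>
    sg_mul k _ h1 (Nat.Coprime.symm ((Nat.Prime.coprime_iff_not_dvd h1).2
      (Nat.not_dvd_of_pos_of_lt k1 (by omega))))
  constructor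
  · rintro h ⟨k, k1, k2, k3⟩
    have : a (p m) ≤ k := by
      refine Nat.sInf_le ⟨by omega, by omega, ?_⟩
      rw [hco k (by omega) k1]
      nlinarith
    omega
  · intro h
    refine le_antisymm (Nat.sInf_le hmem) ?_
    by_contra c
    obtain ⟨k1, k2, k3⟩ := Nat.sInf_mem ⟨_, hmem⟩
    rw [show sInf _ = a (p m) from rfl] at k1 k2 k3
    generalize a (p m) = k at *
    rw [hco k k1 (by omega)] at k3
    have k4 : sg k + 1 = 2 * k := by
      by_contra e
      have : sg k + 2 ≤ 2 * k := by omega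
      nlinarith
    exact h ⟨k, by omega, by nlinarith, k4⟩

theorem result :
    (∀ m n : ℕ, 1 ≤ m → 2 ≤ n → n < p m → a n ≠ 2 ^ m) ∧
    (∀ m : ℕ, 1 ≤ m →
      (a (p m) = 2 ^ m ↔ ¬ ∃ k, k < 2 ^ m ∧ p m < 2 * k ∧ sg k + 1 = 2 * k)) :=
  ⟨fun m n hm h2 hn => first m n hm h2 hn, second⟩

end Pool.Agent.Results.MP_bcda77_nt.Reduction
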